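import Pool.Agent.W192.CY.Stm

/-!
Project CY (helper192): small integers in a multiplicative subgroup.
-/

set_option autoImplicit false

namespace Pool.Agent.W177.CY

open Finset Pool.Agent.W192.CY

/-- the residue of `k` belongs to `H` -/
def PH (q : ℕ) (H : Subgroup (ZMod q)ˣ) (k : ℕ) : Prop :=
  ∃ u ∈ H, ((u : (ZMod q)ˣ) : ZMod q) = (k : ZMod q)

theorem PH_prod {q : ℕ} {H : Subgroup (ZMod q)ˣ} {j : ℕ} (f : Fin j → ℕ)
    (hf : ∀ i, PH q H (f i)) : PH q H (∏ i, f i) := by
  choose u hu1 hu2 using hf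
  refine ⟨∏ i, u i, H.prod_mem fun i _ => hu1 i, ?_⟩
  rw [Units.coe_prod, Nat.cast_prod]
  exact Finset.prod_congr rfl fun i _ => hu2 i

open Classical in
/-- the integers up to `m` in `H` -/
noncomputable def SF (q : ℕ) (H : Subgroup (ZMod q)ˣ) (m : ℕ) : Finset ℕ :=
  (Icc 1 m).filter (PH q H)

theorem mem_SF {q : ℕ} {H : Subgroup (ZMod q)ˣ} {m k : ℕ} :
    k ∈ SF q H m ↔ (1 ≤ k ∧ k ≤ m) ∧ PH q H k := by
  classical
  unfold SF
  rw [mem_filter, mem_Icc]

theorem cnt_eq (q : ℕ) (H : Subgroup (ZMod q)ˣ) {y : ℝ} (hy : 0 ≤ y) :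
    cnt q H y = (SF q H ⌊y⌋₊).card := by
  unfold cnt
  rw [← Set.ncard_coe_finset]
  congr 1
  ext k
  rw [Finset.mem_coe, mem_SF, Nat.le_floor_iff hy]
  exact ⟨fun h => ⟨⟨h.1, h.2.1⟩, h.2.2⟩, fun h => ⟨h.1.1, h.1.2, h.2⟩⟩

theorem SF_card (q : ℕ) [Fact q.Prime] (H : Subgroup (ZMod q)ˣ) (m : ℕ) :
    (SF q H m).card ≤ (m / q + 1) * Nat.card H := by
  classical
  have hq : 0 < q := (Fact.out : q.Prime).pos
  have hfin : ((fun u : (ZMod q)ˣ => (u : ZMod q)) '' (H : Set (ZMod q)ˣ)).Finite := Set.toFinite _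
  have hc : hfin.toFinset.card ≤ Nat.card H := by
    rw [← Set.ncard_eq_toFinset_card _ hfin]
    refine (Set.ncard_image_le (Set.toFinite _)).trans (le_of_eq ?_)
    exact (Nat.card_coe_set_eq _).symm
  calc (SF q H m).card ≤ (range (m / q + 1) ×ˢ hfin.toFinset).card := by
        refine card_le_card_of_injOn (fun k => (k / q, (k : ZMod q))) ?_ ?_
        · intro k hk
          rw [mem_coe, mem_SF] at hk
          rw [mem_coe, mem_product, mem_range, Set.Finite.mem_toFinset]
          exact ⟨Nat.lt_succ_of_le (Nat.div_le_div_right hk.1.2), hk.2⟩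
        · intro k _ k' _ he
          have h1 : k / q = k' / q := congrArg Prod.fst he
          have h2 : (k : ZMod q) = (k' : ZMod q) := congrArg Prod.snd he
          have h3 : k % q = k' % q := (ZMod.natCast_eq_natCast_iff' k k' q).mp h2
          rw [← Nat.div_add_mod k q, ← Nat.div_add_mod k' q, h1, h3]
    _ = (m / q + 1) * hfin.toFinset.card := by rw [card_product, card_range]
    _ ≤ _ := Nat.mul_le_mul_left _ hc

theorem t_count (h : S_DIV) : S_COUNT := by
  classical
  intro j hj η hη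
  have hj0 : (0 : ℝ) < (j : ℝ) := by exact_mod_cast hj
  obtain ⟨C, hC, hdiv, -⟩ := h (η / (j : ℝ) ^ 2) (by positivity)
  refine ⟨C ^ j, by positivity, ?_⟩
  intro q _ H y hy
  have hq : (0 : ℝ) < (q : ℝ) := by exact_mod_cast (Fact.out : q.Prime).pos
  have hy0 : (0 : ℝ) ≤ y := by linarith
  rw [cnt_eq q H hy0]
  set S := SF q H ⌊y⌋₊ with hS
  set T := SF q H ⌊y ^ j⌋₊ with hT
  -- the map
  have hmaps : ∀ f ∈ Fintype.piFinset (fun _ : Fin j => S), (∏ i, f i) ∈ T := by
    intro f hf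
    rw [Fintype.mem_piFinset] at hf
    have hf' : ∀ i, (1 ≤ f i ∧ f i ≤ ⌊y⌋₊) ∧ PH q H (f i) := fun i => mem_SF.mp (hf i)
    rw [hT, mem_SF]
    refine ⟨⟨?_, ?_⟩, PH_prod f fun i => (hf' i).2⟩
    · exact Nat.one_le_iff_ne_zero.mpr (Finset.prod_ne_zero_iff.mpr fun i _ => by
        have := (hf' i).1.1
        omega)
    · rw [Nat.le_floor_iff (by positivity)]
      push_cast
      calc ∏ i, (f i : ℝ) ≤ ∏ _i : Fin j, y := by
            refine Finset.prod_le_prod (fun i _ => by positivity) fun i _ => ?_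
            exact (Nat.le_floor_iff hy0).mp (hf' i).1.2
        _ = y ^ j := by rw [Finset.prod_const, Finset.card_univ, Fintype.card_fin]
  have hfib : ∀ K ∈ T, (((Fintype.piFinset (fun _ : Fin j => S)).filter
      (fun f => ∏ i, f i = K)).card : ℝ) ≤ C ^ j * y ^ η := by
    intro K hK
    rw [hT, mem_SF] at hK
    have hK0 : K ≠ 0 := by have := hK.1.1; omega
    have h1 : ((Fintype.piFinset (fun _ : Fin j => S)).filter
        (fun f => ∏ i, f i = K)).card ≤ K.divisors.card ^ j := by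
      calc _ ≤ (Fintype.piFinset (fun _ : Fin j => K.divisors)).card := by
            refine Finset.card_le_card fun f hf => ?_
            rw [mem_filter] at hf
            rw [Fintype.mem_piFinset]
            intro i
            rw [Nat.mem_divisors]
            exact ⟨hf.2 ▸ Finset.dvd_prod_of_mem f (Finset.mem_univ i), hK0⟩
        _ = _ := by
            rw [Fintype.card_piFinset, Finset.prod_const, Finset.card_univ, Fintype.card_fin]
    have h2 : (((Fintype.piFinset (fun _ : Fin j => S)).filter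
        (fun f => ∏ i, f i = K)).card : ℝ) ≤ (K.divisors.card : ℝ) ^ j := by exact_mod_cast h1
    refine h2.trans ?_
    have h3 : (K.divisors.card : ℝ) ≤ C * y ^ (η / j) := by
      refine (hdiv K hK.1.1).trans ?_
      refine mul_le_mul_of_nonneg_left ?_ hC.le
      have h4 : (K : ℝ) ≤ y ^ j := (Nat.le_floor_iff (by positivity)).mp hK.1.2
      calc (K : ℝ) ^ (η / (j : ℝ) ^ 2) ≤ (y ^ j) ^ (η / (j : ℝ) ^ 2) :=
            Real.rpow_le_rpow (by positivity) h4 (by positivity)
        _ = y ^ (η / j) := by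
            rw [← Real.rpow_natCast y j, ← Real.rpow_mul hy0]
            congr 1
            field_simp
    calc (K.divisors.card : ℝ) ^ j ≤ (C * y ^ (η / j)) ^ j :=
          pow_le_pow_left₀ (by positivity) h3 j
      _ = C ^ j * y ^ η := by
          rw [mul_pow, ← Real.rpow_natCast (y ^ (η / j)) j, ← Real.rpow_mul hy0]
          congr 2
          field_simp
  have hTc : (T.card : ℝ) ≤ (y ^ j / q + 1) * Nat.card H := by
    have h1 := SF_card q H ⌊y ^ j⌋₊
    have h2 : (T.card : ℝ) ≤ (((⌊y ^ j⌋₊ / q + 1 : ℕ)) : ℝ) * Nat.card H := by exact_mod_cast h1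
    refine h2.trans (mul_le_mul_of_nonneg_right ?_ (by positivity))
    push_cast
    have h3 : ((⌊y ^ j⌋₊ / q : ℕ) : ℝ) ≤ (⌊y ^ j⌋₊ : ℝ) / q := Nat.cast_div_le
    have h4 : (⌊y ^ j⌋₊ : ℝ) / q ≤ y ^ j / q :=
      div_le_div_of_nonneg_right (Nat.floor_le (by positivity)) hq.le
    linarith
  have hcard : (S.card : ℝ) ^ j = ((Fintype.piFinset (fun _ : Fin j => S)).card : ℝ) := by
    rw [Fintype.card_piFinset, Finset.prod_const, Finset.card_univ, Fintype.card_fin]
    push_cast
    rfl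
  rw [hcard, Finset.card_eq_sum_card_fiberwise hmaps]
  push_cast
  calc ∑ K ∈ T, (((Fintype.piFinset (fun _ : Fin j => S)).filter
        (fun f => ∏ i, f i = K)).card : ℝ) ≤ ∑ _K ∈ T, C ^ j * y ^ η := Finset.sum_le_sum hfib
    _ = T.card * (C ^ j * y ^ η) := by rw [Finset.sum_const, nsmul_eq_mul]
    _ ≤ ((y ^ j / q + 1) * Nat.card H) * (C ^ j * y ^ η) :=
        mul_le_mul_of_nonneg_right hTc (by positivity)
    _ = _ := by ring

end Pool.Agent.W177.CY
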